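import Pool.Agent.Q113.XU.Stm
import Pool.Agent.Q151.EM.Dec
import Pool.Agent.Q257.EM.EEL
import Pool.Agent.Q257.EM.TUP

/-!
# Project XU, LSS: stability near the star law
-/

set_option autoImplicit false

namespace Pool.Agent.Q128.XU

open Finset Pool.Agent.Q54.EM Pool.Agent.Q113.XU Pool.Agent.Q151.EM

theorem e_EEL : S_EEL := Pool.Agent.Q257.EM.eel

theorem e_SZB : S_SZB :=
  Pool.Agent.Q257.EM.szb Pool.Agent.Q257.EM.tup (Pool.Agent.Q257.EM.one Pool.Agent.Q257.EM.tup)

/-- Taylor -/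
theorem pow_taylor (k : ℕ) (u v : ℝ) (hu : 0 ≤ u) (hu1 : u ≤ 1) (ha : 0 ≤ u + v)
    (ha1 : u + v ≤ 1) : (u + v) ^ k ≤ u ^ k + k * u ^ (k - 1) * v + k ^ 2 * v ^ 2 := by
  have key : ∀ n : ℕ, 0 ≤ (u + v) ^ (n + 1) - u ^ (n + 1) - (n + 1) * u ^ n * v ∧
      (u + v) ^ (n + 1) - u ^ (n + 1) - (n + 1) * u ^ n * v ≤ (n + 1) ^ 2 * v ^ 2 := by
    intro n
    induction n with
    | zero => simp; positivity
    | succ n ih =>
      have e : (u + v) ^ (n + 1 + 1) - u ^ (n + 1 + 1) - ((n + 1 : ℕ) + 1) * u ^ (n + 1) * v =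
          (u + v) * ((u + v) ^ (n + 1) - u ^ (n + 1) - (n + 1) * u ^ n * v) +
            (n + 1) * u ^ n * v ^ 2 := by
        push_cast; ring
      rw [e]
      have h1 : 0 ≤ (n + 1) * u ^ n * v ^ 2 := by positivity
      have h2 : (n + 1) * u ^ n * v ^ 2 ≤ (n + 1) * v ^ 2 := by
        have : u ^ n ≤ 1 := pow_le_one₀ hu hu1
        have h3 : 0 ≤ ((n : ℝ) + 1) * v ^ 2 := by positivity
        nlinarith
      refine ⟨add_nonneg (mul_nonneg ha ih.1) h1, ?_⟩
      have h3 : (u + v) * ((u + v) ^ (n + 1) - u ^ (n + 1) - (n + 1) * u ^ n * v) ≤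
          (n + 1) ^ 2 * v ^ 2 := by
        calc _ ≤ 1 * ((u + v) ^ (n + 1) - u ^ (n + 1) - (n + 1) * u ^ n * v) :=
              mul_le_mul_of_nonneg_right ha1 ih.1
          _ ≤ _ := by rw [one_mul]; exact ih.2
      push_cast
      nlinarith [sq_nonneg v, mul_nonneg (Nat.cast_nonneg (α := ℝ) n) (sq_nonneg v)]
  cases k with
  | zero => simp
  | succ n =>
    have h := (key n).2
    push_cast
    linarith

section

variable {ι : Type} [Fintype ι] {p x : ι → ℝ} {k : ℕ}

theorem EE_nn (hp : ∀ i, 0 ≤ p i) (hx : ∀ i, 0 ≤ x i) (n : ℕ) (f : ℝ → ℝ)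
    (hf : ∀ s, 0 ≤ s → 0 ≤ f s) : 0 ≤ EE p x n f := by
  have h := (e_EEL ι p x n).2.2.2.1 hp hx (fun _ => 0) f hf
  rwa [EE_zero] at h

/-- Markov -/
theorem mark {w : ι → ℝ} (hw : ∀ i, 0 ≤ w i) (hx : ∀ i, 0 ≤ x i) (n : ℕ) {y : ℝ} (hy : 0 < y) :
    EE w x (n + 1) (fun s => if y ≤ s then 1 else 0) ≤
      (n + 1 : ℝ) * (∑ j, w j * x j) * (∑ i, w i) ^ n / y := by
  rw [le_div_iff₀ hy, ← EE_id x e_EEL w n, mul_comm, ← (e_EEL ι w x (n + 1)).2.2.1]
  refine (e_EEL ι w x (n + 1)).2.2.2.1 hw hx _ _ ?_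
  intro s hs
  by_cases h : y ≤ s
  · rw [if_pos h]; linarith
  · rw [if_neg h]; linarith

theorem compl {w : ι → ℝ} (n : ℕ) (y : ℝ) :
    EE w x n (fun s => if s < y then 1 else 0) =
      (∑ i, w i) ^ n - EE w x n (fun s => if y ≤ s then 1 else 0) := by
  rw [← EE_one (x := x) w n, ← (e_EEL ι w x n).2.1]
  congr 1
  funext s
  by_cases h : s < y
  · rw [if_pos h, if_neg (not_le.2 h)]; ring
  · rw [if_neg h, if_pos (not_lt.1 h)]; ring

/-- two big steps are needed -/
theorem tail_two {w : ι → ℝ} (hw : ∀ i, 0 ≤ w i) (hw1 : ∑ i, w i ≤ 1) (hx : ∀ i, 0 ≤ x i)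
    (hk : 2 ≤ k) (hs : ∀ i, w i ≠ 0 → x i ≤ (k : ℝ) / 2) :
    EE w x k (fun s => if (k : ℝ) ≤ s then 1 else 0) ≤ 2 * (∑ i, w i * x i) ^ 2 := by
  obtain ⟨n, rfl⟩ : ∃ n, k = n + 2 := ⟨k - 2, by omega⟩
  set K : ℝ := ((n + 2 : ℕ) : ℝ) with hK
  have hK0 : 0 < K := by rw [hK]; positivity
  have hKn : K = n + 2 := by rw [hK]; push_cast; ring
  set m := ∑ i, w i * x i with hm
  have hm0 : 0 ≤ m := Finset.sum_nonneg fun i _ => mul_nonneg (hw i) (hx i)
  have hsw : 0 ≤ ∑ i, w i := Finset.sum_nonneg fun i _ => hw i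
  -- one step
  have h1 : K * EE w x (n + 2) (fun s => if K ≤ s then 1 else 0) ≤
      EE w x (n + 1 + 1) (fun s => s * (if K ≤ s then 1 else 0)) := by
    rw [← (e_EEL ι w x (n + 2)).2.2.1]
    refine (e_EEL ι w x (n + 2)).2.2.2.1 hw hx _ _ ?_
    intro s hs
    by_cases h : K ≤ s
    · rw [if_pos h]; linarith
    · rw [if_neg h]; linarith
  have h2 : EE w x (n + 1 + 1) (fun s => s * (if K ≤ s then 1 else 0)) ≤
      K * (m * EE w x (n + 1) (fun s => if K / 2 ≤ s then 1 else 0)) := by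
    rw [e_SZB ι w x (n + 1) (fun s => if K ≤ s then 1 else 0)]
    have e : (((n + 1 : ℕ) : ℝ) + 1) = K := by rw [hKn]; push_cast; ring
    rw [e]
    refine mul_le_mul_of_nonneg_left ?_ hK0.le
    rw [hm, Finset.sum_mul]
    refine Finset.sum_le_sum fun i _ => ?_
    by_cases hi : w i = 0
    · rw [hi]; simp
    · refine mul_le_mul_of_nonneg_left ?_ (mul_nonneg (hw i) (hx i))
      refine (e_EEL ι w x (n + 1)).2.2.2.1 hw hx _ _ ?_
      intro s _
      by_cases h : K ≤ s + x i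
      · have := hs i hi
        rw [if_pos h, if_pos (by linarith)]
      · rw [if_neg h]
        split_ifs <;> norm_num
  have h3 := mark hw hx n (show 0 < K / 2 by positivity)
  have h4 : (n + 1 : ℝ) * (∑ j, w j * x j) * (∑ i, w i) ^ n / (K / 2) ≤ 2 * m := by
    rw [div_le_iff₀ (by positivity), ← hm]
    have h5 : (∑ i, w i) ^ n ≤ 1 := pow_le_one₀ hsw hw1
    have h6 : (n + 1 : ℝ) * m * (∑ i, w i) ^ n ≤ (n + 1 : ℝ) * m * 1 :=
      mul_le_mul_of_nonneg_left h5 (by positivity)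
    have h7 : (n + 1 : ℝ) * m ≤ K * m := by
      refine mul_le_mul_of_nonneg_right ?_ hm0
      linarith
    linarith
  have h8 : m * EE w x (n + 1) (fun s => if K / 2 ≤ s then 1 else 0) ≤ m * (2 * m) :=
    mul_le_mul_of_nonneg_left (h3.trans h4) hm0
  have h9 : K * EE w x (n + 2) (fun s => if K ≤ s then 1 else 0) ≤ K * (2 * m ^ 2) := by
    refine (h1.trans h2).trans ?_
    refine mul_le_mul_of_nonneg_left ?_ hK0.le
    linarith
  exact le_of_mul_le_mul_left h9 hK0

end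

theorem phi_ineq {k : ℕ} {s M ρ u P : ℝ} (hs0 : 0 ≤ s) (hs : s ≤ (k : ℝ) / 2) (hM : 0 ≤ M)
    (hρ : 0 ≤ ρ) (hρ1 : ρ ≤ 1) (hu : 0 ≤ u) (hP : 0 ≤ P) (hP1 : 0 < s → u * (1 - M / s) ≤ P) :
    u * (s - M + ρ * (s - M)) ≤ k * P := by
  rcases le_total s M with h | h
  · have h1 : s - M + ρ * (s - M) ≤ 0 := by nlinarith
    have h2 : 0 ≤ (k : ℝ) * P := by positivity
    nlinarith
  · rcases hs0.eq_or_lt with h0 | h0
    · have hM0 : M = 0 := by linarith
      rw [← h0, hM0]
      simp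
      positivity
    · have h1 := hP1 h0
      have h2 : (k : ℝ) * (u * (1 - M / s)) ≤ k * P :=
        mul_le_mul_of_nonneg_left h1 (Nat.cast_nonneg k)
      refine le_trans ?_ h2
      have h3 : (k : ℝ) * (u * (1 - M / s)) - u * (s - M + ρ * (s - M)) =
          u * ((s - M) * ((k : ℝ) / s - 1 - ρ)) := by
        field_simp
        ring
      have h4 : 2 ≤ (k : ℝ) / s := by
        rw [le_div_iff₀ h0]; linarith
      have h5 : 0 ≤ u * ((s - M) * ((k : ℝ) / s - 1 - ρ)) :=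
        mul_nonneg hu (mul_nonneg (by linarith) (by linarith))
      linarith

theorem t_LSS : S_LSS := by
  intro k r hk hr
  obtain ⟨hr0, hr1, hrc⟩ := hr
  have hk0 : (0 : ℝ) < k := by positivity
  have hk2 : (2 : ℝ) ≤ k := by exact_mod_cast hk
  set R : ℝ := (1 + r) / 2 with hR
  have hR1 : R < 1 := by rw [hR]; linarith
  have hR0 : 0 < R := by rw [hR]; linarith
  set θ : ℝ := R * (k - 1) / (k - R) with hθ
  have hkR : 0 < k - R := by linarith
  have hθ1 : θ < 1 := by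
    rw [hθ, div_lt_one hkR]; nlinarith
  have hθ0 : 0 ≤ θ := by
    rw [hθ]; apply div_nonneg _ hkR.le; nlinarith
  set ρ : ℝ := (1 - θ) / 2 with hρ
  have hρ0 : 0 < ρ := by rw [hρ]; linarith
  have hρ1 : ρ ≤ 1 := by rw [hρ]; linarith
  set c0 : ℝ := (1 / 2) ^ (k - 1) * ρ with hc0
  have hc0p : 0 < c0 := by rw [hc0]; positivity
  refine ⟨c0 / 2, min ((1 - r) / 2) (c0 / 6), by positivity, lt_min (by linarith) (by positivity), ?_⟩
  intro ι _ p x hF hd
  have hd1 : dS k p x ≤ (1 - r) / 2 := hd.trans (min_le_left _ _)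
  have hd2 : dS k p x ≤ c0 / 6 := hd.trans (min_le_right _ _)
  set w := sw k p x with hw
  set b := ∑ j, bw k p x j with hb
  set m := ∑ i, w i * x i with hm
  set σ := ∑ j, bw k p x j * (k - x j) with hσ
  have hw0 : ∀ i, 0 ≤ w i := by
    intro i; rw [hw]; simp only [sw]; split_ifs
    · exact hF.p0 i
    · exact le_rfl
  have hb0 : ∀ i, 0 ≤ bw k p x i := by
    intro i; simp only [bw]; split_ifs
    · exact hF.p0 i
    · exact le_rfl
  have hwb : ∀ i, w i + bw k p x i = p i := fun i => sw_add_bw p x k i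
  have hsum : ∑ i, w i = 1 - b := by
    rw [eq_sub_iff_add_eq, hb, ← Finset.sum_add_distrib, ← hF.p1]
    exact Finset.sum_congr rfl fun i _ => hwb i
  have hm0 : 0 ≤ m := Finset.sum_nonneg fun i _ => mul_nonneg (hw0 i) (hF.x0 i)
  have hσ0 : 0 ≤ σ := Finset.sum_nonneg fun i _ => mul_nonneg (hb0 i) (by linarith [hF.xk i])
  have hbb : 0 ≤ b := Finset.sum_nonneg fun i _ => hb0 i
  have hdS : dS k p x = m + σ := by
    rw [hm, hσ, ← Finset.sum_add_distrib]
    refine Finset.sum_congr rfl fun i _ => ?_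
    rw [hw]
    simp only [sw, bw]
    by_cases h : x i ≤ (k : ℝ) / 2
    · rw [if_pos h, if_neg (not_lt.2 h), min_eq_left (by linarith)]; ring
    · rw [if_neg h, if_pos (not_le.1 h), min_eq_right (by linarith [not_le.1 h])]; ring
  have hmean : r = m + k * b - σ := by
    have h1 : ∑ i, p i * x i = r := hF.m
    rw [← h1, hm, hσ, hb, Finset.mul_sum, ← Finset.sum_add_distrib, ← Finset.sum_sub_distrib]
    refine Finset.sum_congr rfl fun i _ => ?_
    rw [← hwb i]; ring
  have hkb : k * b ≤ R := by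
    have : k * b = r - m + σ := by linarith
    rw [this, hR]; linarith
  have hb12 : b ≤ 1 / 2 := by nlinarith
  set u : ℝ := 1 - b with hu
  have hu12 : 1 / 2 ≤ u := by rw [hu]; linarith
  have hu0 : 0 < u := by linarith
  have hu1 : u ≤ 1 := by rw [hu]; linarith
  set M : ℝ := (k - 1) * m / u with hM
  have hM0 : 0 ≤ M := by
    rw [hM]; apply div_nonneg (mul_nonneg (by linarith) hm0) hu0.le
  -- the decomposition
  have hdec : PR p x k k = EE w x k (fun s => if s < (k : ℝ) then 1 else 0) +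
      k * ∑ j, bw k p x j * EE w x (k - 1) (fun s => if s + x j < (k : ℝ) then 1 else 0) :=
    decomp p x k hF.x0 k (fun s => if s < (k : ℝ) then 1 else 0) fun s hs => if_neg (not_lt.mpr hs)
  have hA : EE w x k (fun s => if (k : ℝ) ≤ s then 1 else 0) ≤ 2 * m ^ 2 := by
    refine tail_two hw0 (by rw [hsum]; exact hu1) hF.x0 hk ?_
    intro i hi
    by_contra h
    apply hi
    rw [hw]
    simp only [sw]
    rw [if_neg h]
  have h1 : u ^ k - 2 * m ^ 2 ≤ EE w x k (fun s => if s < (k : ℝ) then 1 else 0) := by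
    rw [compl, hsum]; linarith
  -- the big entries
  have h2 : ∀ j, bw k p x j * (u ^ (k - 1) * ((k - x j) - M + ρ * ((k - x j) - M))) ≤
      bw k p x j * (k * EE w x (k - 1) (fun s => if s + x j < (k : ℝ) then 1 else 0)) := by
    intro j
    by_cases hj : bw k p x j = 0
    · rw [hj]; simp
    · have hjk := bw_ne p x k hj
      refine mul_le_mul_of_nonneg_left ?_ (hb0 j)
      have hs0 : 0 ≤ (k : ℝ) - x j := by linarith [hF.xk j]
      refine phi_ineq hs0 (by linarith) hM0 hρ0.le hρ1 (by positivity) ?_ ?_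
      · refine EE_nn hw0 hF.x0 _ _ ?_
        intro s _
        split_ifs <;> norm_num
      · intro hs
        have e1 : EE w x (k - 1) (fun s => if s + x j < (k : ℝ) then 1 else 0) =
            EE w x (k - 1) (fun s => if s < (k : ℝ) - x j then 1 else 0) := by
          congr 1
          funext s
          by_cases h : s + x j < (k : ℝ)
          · rw [if_pos h, if_pos (by linarith)]
          · rw [if_neg h, if_neg (by intro h'; exact h (by linarith))]
        rw [e1, compl, hsum]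
        obtain ⟨n, hn⟩ : ∃ n, k - 1 = n + 1 := ⟨k - 2, by omega⟩
        have hkn : (k : ℝ) - 1 = n + 1 := by
          have : k = n + 2 := by omega
          rw [this]; push_cast; ring
        rw [hn]
        have h3 := mark hw0 hF.x0 n hs
        rw [hsum, ← hm] at h3
        have h4 : u ^ (n + 1) * (M / (k - x j)) = (n + 1) * m * u ^ n / (k - x j) := by
          rw [hM, hkn, pow_succ]
          field_simp
        have h5 : u ^ (n + 1) * (1 - M / (k - x j)) =
            u ^ (n + 1) - (n + 1) * m * u ^ n / (k - x j) := by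
          rw [← h4]; ring
        rw [h5]
        linarith
  have h3 : u ^ (k - 1) * ((1 + ρ) * (σ - b * M)) ≤
      k * ∑ j, bw k p x j * EE w x (k - 1) (fun s => if s + x j < (k : ℝ) then 1 else 0) := by
    have h4 := Finset.sum_le_sum fun j (_ : j ∈ (Finset.univ : Finset ι)) => h2 j
    have e1 : ∑ j, bw k p x j * (u ^ (k - 1) * ((k - x j) - M + ρ * ((k - x j) - M))) =
        u ^ (k - 1) * ((1 + ρ) * (σ - b * M)) := by
      rw [hσ, hb, Finset.sum_mul, ← Finset.sum_sub_distrib, Finset.mul_sum, Finset.mul_sum]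
      refine Finset.sum_congr rfl fun i _ => ?_
      ring
    have e2 : ∑ j, bw k p x j * (k * EE w x (k - 1) (fun s => if s + x j < (k : ℝ) then 1 else 0)) =
        k * ∑ j, bw k p x j * EE w x (k - 1) (fun s => if s + x j < (k : ℝ) then 1 else 0) := by
      rw [Finset.mul_sum]
      refine Finset.sum_congr rfl fun i _ => ?_
      ring
    rw [e1, e2] at h4
    exact h4
  -- the power
  have hrk : 1 - r ^ k = (1 - r / k) ^ k := by linarith
  have hrk1 : r / k ≤ 1 := by rw [div_le_one hk0]; linarith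
  have hrk0 : 0 ≤ r / k := by positivity
  have huv : u + (σ - m) / k = 1 - r / k := by
    rw [hu, hmean]; field_simp; ring
  have h5 := pow_taylor k u ((σ - m) / k) hu0.le hu1 (by rw [huv]; linarith)
    (by rw [huv]; linarith)
  rw [huv, ← hrk] at h5
  have e5 : (k : ℝ) * u ^ (k - 1) * ((σ - m) / k) = u ^ (k - 1) * (σ - m) := by
    field_simp
  have e6 : (k : ℝ) ^ 2 * ((σ - m) / k) ^ 2 = (σ - m) ^ 2 := by
    field_simp
  rw [e5, e6] at h5
  -- the coefficient
  have h6 : b * M ≤ θ * m := by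
    have e : b * M = (b * (k - 1) / u) * m := by rw [hM]; ring
    rw [e]
    refine mul_le_mul_of_nonneg_right ?_ hm0
    rw [hθ, div_le_div_iff₀ hu0 hkR]
    have : b * (k - 1) * (k - R) ≤ R * (k - 1) * u ↔ (k - 1) * (b * (k - R)) ≤ (k - 1) * (R * u) := by
      constructor <;> intro h <;> linarith
    rw [this]
    refine mul_le_mul_of_nonneg_left ?_ (by linarith)
    rw [hu]; linarith
  have h7 : ρ * (σ + m) ≤ (1 + ρ) * (σ - b * M) - (σ - m) := by
    have h8 : (1 + ρ) * (b * M) ≤ (1 + ρ) * (θ * m) :=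
      mul_le_mul_of_nonneg_left h6 (by linarith)
    have h9 : (1 + ρ) * θ ≤ 1 - ρ := by rw [hρ]; nlinarith
    have h10 : (1 + ρ) * θ * m ≤ (1 - ρ) * m := mul_le_mul_of_nonneg_right h9 hm0
    nlinarith
  have hup : (1 / 2 : ℝ) ^ (k - 1) ≤ u ^ (k - 1) := pow_le_pow_left₀ (by norm_num) hu12 _
  have h8 : c0 * (σ + m) ≤ u ^ (k - 1) * ((1 + ρ) * (σ - b * M) - (σ - m)) := by
    calc c0 * (σ + m) = (1 / 2) ^ (k - 1) * (ρ * (σ + m)) := by rw [hc0]; ring
      _ ≤ u ^ (k - 1) * (ρ * (σ + m)) := mul_le_mul_of_nonneg_right hup (by positivity)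
      _ ≤ _ := mul_le_mul_of_nonneg_left h7 (by positivity)
  have h9 : PR p x k k - (1 - r ^ k) ≥ c0 * (σ + m) - 3 * (σ + m) ^ 2 := by
    have h10 : (σ - m) ^ 2 ≤ (σ + m) ^ 2 := by nlinarith
    have h11 : m ^ 2 ≤ (σ + m) ^ 2 := by nlinarith
    rw [hdec]
    have h12 : u ^ (k - 1) * ((1 + ρ) * (σ - b * M) - (σ - m)) =
      u ^ (k - 1) * ((1 + ρ) * (σ - b * M)) - u ^ (k - 1) * (σ - m) := by ring
    rw [h12] at h8
    linarith
  have h10 : dS k p x = σ + m := by rw [hdS]; ring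
  rw [h10] at hd2 ⊢
  have h11 : (σ + m) * (σ + m) ≤ c0 / 6 * (σ + m) :=
    mul_le_mul_of_nonneg_right hd2 (by positivity)
  nlinarith

end Pool.Agent.Q128.XU
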